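import Pool.Agent.J6H93.PathCover.Main

/-!
# Path odd-covers of Eulerian graphs of maximum degree four

Every Eulerian graph `G` with maximum degree four satisfies `p₂(G) ≤ 3`.
-/

namespace Pool.Agent.Results.MP_4dfdc8_co.ThreePaths

/-- `G` has a path odd-cover with `k` paths: there are `k` paths in the complete graph on `V` such
that a pair of vertices is an edge of `G` exactly when it is an edge of an odd number of the
paths. -/
def HasPathOddCover {V : Type*} (G : SimpleGraph V) (k : ℕ) : Prop :=
  ∃ (a b : Fin k → V) (P : ∀ i, (⊤ : SimpleGraph V).Walk (a i) (b i)),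
    (∀ i, (P i).IsPath) ∧
      ∀ e : Sym2 V, e ∈ G.edgeSet ↔ Odd ({i | e ∈ (P i).edges} : Set (Fin k)).ncard

/-- The path odd-cover number `p₂(G)`: the least number of paths in a path odd-cover. -/
noncomputable def pathOddCoverNumber {V : Type*} (G : SimpleGraph V) : ℕ :=
  sInf {k | HasPathOddCover G k}

/-- **Every Eulerian graph of maximum degree four has a path odd-cover with three paths**, so its
path odd-cover number is at most three. -/
theorem result {V : Type*} [Fintype V] (G : SimpleGraph V) [DecidableRel G.Adj]
    (hEulerian : ∀ v, Even (G.degree v)) (hmax : G.maxDegree = 4) :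
    HasPathOddCover G 3 ∧ pathOddCoverNumber G ≤ 3 := by
  have hne : Nonempty V := by
    by_contra h
    rw [not_nonempty_iff] at h
    have : G.maxDegree = 0 := by
      apply Nat.eq_zero_of_le_zero
      apply G.maxDegree_le_of_forall_degree_le
      intro v
      exact h.elim v
    omega
  obtain ⟨v0, hv0⟩ := G.exists_maximal_degree_vertex
  obtain ⟨a, b, P, hP, hE⟩ := Pool.Agent.J6H93.PathCover.exists_three_paths G hEulerian
    (fun v => hmax ▸ G.degree_le_maxDegree v) v0 (hv0.symm.trans hmax)
  have h3 : HasPathOddCover G 3 := by
    refine ⟨a, b, P, hP, ?_⟩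
    intro e
    induction e using Sym2.ind with
    | _ x y => exact (hE x y).symm
  exact ⟨h3, Nat.sInf_le h3⟩

end Pool.Agent.Results.MP_4dfdc8_co.ThreePaths
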